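import Mathlib
import Pool.Agent.Run7.h988.PY.Ord

/-!
# The Birch-Swinnerton-Dyer conjecture modulo 2 over the subfields of a Galois extension

`F/K` is a finite Galois extension of number fields with group `G` and `E/K` is an elliptic curve. The
theorem compares the conjecture modulo 2 for `E` over the intermediate fields of `F/K`: one may pass from
a field to its intersection with the fixed field of a solvable normal subgroup of odd order whose prime
divisors satisfy a congruence; if the conjecture fails over `K`, it fails over an intermediate field `L` for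
which it holds over every larger intermediate field, and the group of `F/L` is of a very special kind.
-/

set_option autoImplicit false

namespace Pool.Agent.Results.MP_413b36_nt.ModTwoOverSubfields

open Pool.Agent.H541R3.ART Run7.h988.PY

/-- The Mordell-Weil group and the L-functions of an elliptic curve `E/K` along a finite Galois
extension `F/K` with group `G`; the subgroup `H` stands for the intermediate field `F^H`. -/
structure Curve (G : Type) [Group G] [Finite G] (V : Type) [AddCommGroup V] [Module ℚ V] where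
  /-- the representation of `G` on `V = E(F) ⊗ ℚ` -/
  ρ : Representation ℚ G V
  /-- the L-functions `L(E/K, χ, s)` of the Artin twists by the irreducible characters of `G` -/
  L : (G → ℂ) → ℂ → ℂ
  /-- the L-functions `L(E/F^H, s)` -/
  LF : Subgroup G → ℂ → ℂ
  /-- the twisted L-functions are meromorphic at `1` and not identically zero -/
  mero : ∀ χ ∈ Irr G, MeromorphicAt (L χ) 1 ∧ meromorphicOrderAt (L χ) 1 ≠ ⊤
  /-- functional equation: the twists by `χ` and by its complex conjugate have the same order at `1` -/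
  dual : ∀ χ ∈ Irr G,
    meromorphicOrderAt (L (fun g => (starRingEnd ℂ) (χ g))) 1 = meromorphicOrderAt (L χ) 1
  /-- for a real valued character `χ` the parity of the order at `1`, which by the functional equation is given by
  the root number, is the same for `χ` and for its conjugate `g ↦ χ (g ^ k)` (Rohrlich) -/
  galois : ∀ χ ∈ Irr G, (∀ g, (starRingEnd ℂ) (χ g) = χ g) → ∀ k : ℕ, Nat.Coprime (Nat.card G) k →
    Even ((meromorphicOrderAt (L (fun g => χ (g ^ k))) 1).untop₀ - (meromorphicOrderAt (L χ) 1).untop₀)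
  /-- Artin formalism: `L(E/F^H, s)` is the product of the `L(E/K, χ, s)` to the power the dimension of the
  space of `H`-invariants of `χ` -/
  artin : ∀ H : Subgroup G, ∀ m : (G → ℂ) → ℕ,
    (∀ χ ∈ Irr G, (m χ : ℂ) = (Nat.card H : ℂ)⁻¹ * ∑ᶠ h : H, χ h) → LF H = fun s => ∏ᶠ χ ∈ Irr G, L χ s ^ m χ

variable {G : Type} [Group G] [Finite G] {V : Type} [AddCommGroup V] [Module ℚ V]

/-- the Mordell-Weil rank of `E` over `F^H`, the dimension of the `H`-invariants of `E(F) ⊗ ℚ` -/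
noncomputable def Curve.rank (E : Curve G V) (H : Subgroup G) : ℕ :=
  Module.finrank ℚ (Representation.invariants (E.ρ.comp H.subtype))

/-- the conjecture modulo 2 for `E` over `F^H`: order of vanishing and rank have the same parity -/
def Curve.ModTwo (E : Curve G V) (H : Subgroup G) : Prop :=
  ∃ z : ℤ, meromorphicOrderAt (E.LF H) 1 = z ∧ Even (z - E.rank H)

/-- **The conjecture modulo 2 over the subfields of a Galois extension.** -/
theorem result [FiniteDimensional ℚ V] (E : Curve G V) :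
    (∀ (N : Subgroup G) [N.Normal] (a : ℕ), Group.IsSolvable N →
      (∀ g : G, (∃ b : ℕ, g ^ 2 ^ b = 1) → ∀ n ∈ N, g ^ 2 ^ a * n = n * g ^ 2 ^ a) →
      (∀ q : ℕ, q.Prime → q ∣ Nat.card N → q ≡ 1 [MOD 2 ^ (a + 1)]) →
      (∀ H : Subgroup G, E.ModTwo H ↔ E.ModTwo (H ⊔ N)) ∧
      (⁅(⊤ : Subgroup G), ⊤⁆ ≤ N → E.ModTwo ⊤ → (∀ H : Subgroup G, H.index = 2 → E.ModTwo H) →
        ∀ H : Subgroup G, E.ModTwo H)) ∧
    (¬ E.ModTwo ⊤ →
      (∃ U C : Subgroup G, ¬ E.ModTwo U ∧ (∀ U' : Subgroup G, U' < U → E.ModTwo U') ∧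
        C ≤ U ∧ IsCyclic C ∧ Odd (Nat.card C) ∧ (∀ u ∈ U, ∀ c ∈ C, u * c * u⁻¹ ∈ C) ∧
        (∀ u ∈ U, ∃ j : ℕ, u ^ 2 ^ j ∈ C) ∧
        ∀ q : ℕ, q.Prime → q ∣ Nat.card C → ∀ k : ℕ, Nat.Coprime (Nat.card G) k →
          ∃ m : ℕ, Odd m ∧ ∃ u ∈ U, ∀ c ∈ C, c ^ q = 1 → u * c * u⁻¹ = c ^ k ^ m) ∧
      ∀ a : ℕ, (∀ g : G, (∃ b : ℕ, g ^ 2 ^ b = 1) → g ^ 2 ^ a = 1) →
        (∀ q : ℕ, q.Prime → q ≠ 2 → q ∣ Nat.card G → q ≡ 1 [MOD 2 ^ (a + 1)]) →
        ∃ U : Subgroup G, IsPGroup 2 U ∧ ¬ E.ModTwo U ∧ ∀ U' : Subgroup G, U' < U → E.ModTwo U') := by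
  classical
  let τ : ℚ →+* ℂ := algebraMap ℚ ℂ
  let w : (G → ℂ) → ℂ := fun χ => (-1) ^ ordz 1 (E.L χ)
  let D : G → ℂ := fun g => τ (E.ρ.character g) + Dw w g
  have hpar : ∀ H : Subgroup G, E.ModTwo H ↔ Ev D H := fun H =>
    parity_ord τ E.ρ E.L 1 E.mero E.dual H (E.LF H) (E.artin H)
  have hD : Pool.Agent.W446.AS.Virt D := by
    have h1 : D = (fun g => τ (E.ρ.character g)) + Dw w := rfl
    rw [h1]
    exact add_mem (virt_char τ E.ρ) (virt_Dw w)
  have hDk : ∀ k : ℕ, Nat.Coprime (Nat.card G) k → ∀ g, D (g ^ k) = D g := by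
    intro k hk g
    change τ (E.ρ.character (g ^ k)) + Dw w (g ^ k) = _
    rw [rat_pow τ E.ρ hk, Dw_pow w hk (fun χ hχ hre => neg_zpow_even (E.galois χ hχ hre k hk))]
  have hinv : ∀ g, D g⁻¹ = D g := by
    intro g
    obtain ⟨n, hn⟩ : ∃ n, Nat.card G = n + 1 := ⟨_, (Nat.succ_pred_eq_of_pos Nat.card_pos).symm⟩
    have h1 : g ^ n = g⁻¹ := by
      rw [eq_inv_iff_mul_eq_one, ← pow_succ, ← hn, pow_card_eq_one']
    have h2 : Nat.Coprime (Nat.card G) n := by
      rw [hn]
      exact Nat.coprime_self_add_left.mpr (Nat.coprime_one_left n) |>.symm |>.symm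
    rw [← h1, hDk n h2]
  obtain ⟨k, hk, hord⟩ := exists_gen (Nat.card G) Nat.card_pos.ne'
  refine ⟨?_, fun hE => ?_⟩
  · intro N _ a hsol ha hN
    have hq : ∀ q : ℕ, q.Prime → q ∣ Nat.card N → 2 ^ (a + 1) ∣ orderOf (k : ZMod q) := by
      intro q hq1 hq2
      rw [hord q hq1 (hq2.trans (Subgroup.card_subgroup_dvd_card N))]
      exact (Nat.modEq_iff_dvd' hq1.one_le).mp (hN q hq1 hq2).symm
    refine ⟨fun H => ?_, fun hab h1 h2 H => ?_⟩
    · rw [hpar, hpar]
      exact tower_ev hD N hsol a k ha hk (hDk k hk) hq H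
    · rw [hpar]
      exact abelian_base hD N hsol hab a k ha hk (hDk k hk) hinv hq ((hpar ⊤).mp h1)
        (fun U hU => (hpar U).mp (h2 U hU)) H
  have h0 : ¬ Ev D ⊤ := fun h => hE ((hpar ⊤).mpr h)
  refine ⟨?_, ?_⟩
  · obtain ⟨U, ⟨C, hCU, hC, hcop, hnorm, hpow⟩, hodd, hmin, hcrit⟩ := crit hD h0
    refine ⟨U, C, fun h => hodd ((hpar U).mp h), fun U' hU' => (hpar U').mpr (hmin U' hU'), hCU, hC,
      Nat.coprime_two_right.mp hcop, hnorm, hpow, ?_⟩
    intro q hq hqC k hk
    have hq2 : q ≠ 2 := by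
      rintro rfl
      have h1 := Nat.dvd_gcd hqC dvd_rfl
      rw [hcop] at h1
      exact absurd (Nat.le_of_dvd one_pos h1) (by norm_num)
    obtain ⟨m, hm, u, hu, huc⟩ := hcrit k hk (hDk k hk) q hq hq2 (hqC.trans (Subgroup.card_dvd_of_le hCU))
    exact ⟨m, hm, u, hu, fun c hc hcq => huc c (hCU hc) hcq⟩
  · intro a ha hq
    obtain ⟨U, hU, hodd, hmin⟩ := crit_two hD h0 a ha (fun q hq1 hq2 hq3 => ⟨k, hk, hDk k hk, by
      rw [hord q hq1 hq3]
      exact (Nat.modEq_iff_dvd' hq1.one_le).mp (hq q hq1 hq2 hq3).symm⟩)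
    exact ⟨U, hU, fun h => hodd ((hpar U).mp h), fun U' hU' => (hpar U').mpr (hmin U' hU')⟩

end Pool.Agent.Results.MP_413b36_nt.ModTwoOverSubfields
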