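import Pool.Agent.Run7.h743.IN.Mq2c
import Pool.Agent.Results.MP_cd906c_nt.MultiquadraticTowers

/-!
# The rank part of the Birch and Swinnerton-Dyer conjecture for `X_0(14)` over multiquadratic fields,
# real or imaginary, and their composites with real cyclotomic fields of odd degree

`E` is the modular curve `X_0(14)`, `y² + xy + y = x³ + 4x - 6`.  Let `F₀ = ℚ(√d : d ∈ S)` be a
multiquadratic field, real or not, of arbitrary degree, where the `d = 1` modulo `4` are composed of
primes inert in `ℚ(√2)` and in `ℚ(√-7)` (that is, `3` or `5` modulo `8` and not squares modulo `7`).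
We prove that `L(E/F₀, 1) ≠ 0` and that `E(F₀)` is finite.  The same holds over `F₀ K` for the
subfields `K` of odd degree of the `q`-th cyclotomic field as in `MP_cd906c_nt/MultiquadraticTowers`,
if the prime divisors of the `d` are inert in `K` or divide `q`.  So if `U` is generated by all the
`√p*` (`p* = ± p = 1` modulo `4`), where `p` is such a prime and `p = 3` or `p` is not `±1` modulo
`9`, and by the cyclotomic `ℤ₃`-extension of `ℚ`, then all the points of `E` over the infinite
extension `U` of `ℚ` are torsion points.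

For the primes `5` modulo `8` (and then the fields `F₀` are real) this is in the starting file
`MP_cd906c_nt/MultiquadraticTowers`, whose comparison between `F` and `F₀` is used here.  New are the
primes `3` modulo `8` and hence the imaginary fields.

The proof: the `L`-function over `F₀` is the product of the `L(E, χ, s)` for the quadratic characters
`χ` of `Gal(F₀/ℚ)`, and `L(E, χ, 1)` divided by the period is computed modulo powers of `2` by the
action of the Atkin-Lehner involution `a ↦ -1 / (14 a)` on the classes of residues and Dedekind sums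
(helper files of `MP_9c97e9_nt/AllInertTwists`); the ranks are computed by a descent with the
isogenies of degree two.
-/

set_option autoImplicit false

open NumberField IsDedekindDomain

namespace Pool.Agent.Results.MP_413b36_nt.MultiquadraticInertFields

open scoped Classical

open Pool.Agent.Y682 (NCl)

/-- The elliptic curve `X_0(14)`, with its global minimal equation
`y² + x y + y = x³ + 4 x - 6`. -/
def E : WeierstrassCurve ℤ := ⟨1, 0, 1, 4, -6⟩

/-- The curve given by the equation of `W` over the ring `R`. -/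
abbrev base (W : WeierstrassCurve ℤ) (R : Type) [CommRing R] : WeierstrassCurve R :=
  W.map (Int.castRingHom R)

/-- The number of the affine points `(x, y)` over the ring `R`. -/
noncomputable def pts (W : WeierstrassCurve ℤ) (R : Type) [CommRing R] : ℕ :=
  Nat.card {P : R × R // (base W R).toAffine.Equation P.1 P.2}

section

variable {K : Type} [Field K] [NumberField K]

/-- `a_v = N v + 1 - #W(k_v)`, the points over the residue field `k_v` counted with the point at
infinity. -/
noncomputable def a (W : WeierstrassCurve ℤ) (v : HeightOneSpectrum (𝓞 K)) : ℤ :=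
  (Ideal.absNorm v.asIdeal : ℤ) - pts W (𝓞 K ⧸ v.asIdeal)

/-- The Euler factor of `L(W/K, s)` at `v` : `(1 - a_v N v^(-s) + N v^(1 - 2 s))⁻¹` if the
discriminant is a unit at `v`, and `(1 - a_v N v^(-s))⁻¹` otherwise. -/
noncomputable def factor (W : WeierstrassCurve ℤ) (s : ℂ) (v : HeightOneSpectrum (𝓞 K)) : ℂ :=
  (1 - (a W v : ℂ) * (Ideal.absNorm v.asIdeal : ℂ) ^ (-s) +
    if ((W.Δ : ℤ) : 𝓞 K) ∈ v.asIdeal then 0 else (Ideal.absNorm v.asIdeal : ℂ) ^ (1 - 2 * s))⁻¹

end

section

variable (K : Type) [Field K] [NumberField K]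

/-- `n` generates a prime ideal of the ring of integers of `K`. -/
def Inert (n : ℕ) : Prop := (Ideal.span {((n : ℕ) : 𝓞 K)}).IsPrime

/-- The `L`-function of `E` over `K` is an entire function `L`, `L(1)` is not zero, and `E(K)` is
finite; in particular the order of vanishing of `L` at `s = 1` is the rank of `E(K)`. -/
def RankPartZero : Prop :=
  ∃ L : ℂ → ℂ, Differentiable ℂ L ∧ (∀ s : ℂ, 3 / 2 < s.re → HasProd (factor (K := K) E s) (L s)) ∧
    L 1 ≠ 0 ∧ Finite (base E K).toAffine.Point ∧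
    analyticOrderAt L 1 = Module.finrank ℤ (base E K).toAffine.Point

end

/-- The subfield `ℚ(√d : d ∈ S)` of `ℂ`. -/
noncomputable def multiquadratic (S : Finset ℤ) : IntermediateField ℚ ℂ :=
  IntermediateField.adjoin ℚ {z : ℂ | ∃ d ∈ S, z ^ 2 = (d : ℂ)}

/-- The subfield of `ℂ` generated by the `q`-th roots of unity. -/
noncomputable def cyclotomic (q : ℕ) : IntermediateField ℚ ℂ :=
  IntermediateField.adjoin ℚ {z : ℂ | z ^ q = 1}

/-- The primes that are inert in `ℚ(√2)` and in `ℚ(√-7)`. -/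
def InertPrime (p : ℕ) : Prop :=
  p.Prime ∧ (p % 8 = 3 ∨ p % 8 = 5) ∧ (p % 7 = 3 ∨ p % 7 = 5 ∨ p % 7 = 6)

/-- `d` is squarefree, `1` modulo `4`, and its prime divisors are inert in `ℚ(√2)` and in
`ℚ(√-7)`. -/
def InertProduct (d : ℤ) : Prop :=
  Squarefree d ∧ d % 4 = 1 ∧ ∀ p : ℕ, p.Prime → (p : ℤ) ∣ d → InertPrime p

/-- The infinite extension of `ℚ` generated by the square roots of all the `± p`, `1` modulo `4`,
where the prime `p` is inert in `ℚ(√2)` and in `ℚ(√-7)` and is `3` or not `±1` modulo `9`, and by all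
the real elements of the fields of `3^n`-th roots of unity (the cyclotomic `ℤ₃`-extension of `ℚ`). -/
noncomputable def U : IntermediateField ℚ ℂ :=
  IntermediateField.adjoin ℚ
    ({z : ℂ | ∃ p : ℕ, InertPrime p ∧ p % 9 ≠ 1 ∧ p % 9 ≠ 8 ∧ z ^ 2 = (-1) ^ (p / 2) * p} ∪
      {z : ℂ | z.im = 0 ∧ ∃ n : ℕ, z ∈ cyclotomic (3 ^ n)})

lemma E_disc : E.Δ = -21952 := Pool.Agent.Results.MP_cd906c_nt.MultiquadraticTowers.E_disc

lemma factor_eq {K : Type} [Field K] [NumberField K] (s : ℂ) :
    factor (K := K) E s = Pool.Agent.Y682.XT.fE (K := K) s :=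
  Pool.Agent.Results.MP_cd906c_nt.MultiquadraticTowers.factor_eq s

lemma of_main {F : Type} [Field F] [NumberField F] {G : ℂ → ℂ} (h1 : Differentiable ℂ G)
    (h2 : ∀ z : ℂ, 3 / 2 < z.re → HasProd (Pool.Agent.Y682.XT.fE (K := F) z) (G z))
    (h3 : G 1 ≠ 0) (h4 : Pool.Agent.Y682.XD.RR F 1 = 0) : RankPartZero F := by
  have h5 : Pool.Agent.Y682.XF.rank F E = 0 := by
    rw [← h4]
    exact Pool.Agent.Results.MP_cd906c_nt.MultiquadraticTowers.rank_eq F
  have h6 : Module.finrank ℤ (base E F).toAffine.Point = 0 := h5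
  refine ⟨G, h1, fun s hs => ?_, h3, ?_, ?_⟩
  · rw [factor_eq]
    exact h2 s hs
  · exact Pool.Agent.Run7.h743.IN.finite_pts F E (by rw [E_disc]; norm_num) h5
  · rw [h6]
    exact analyticOrderAt_eq_zero.2 (Or.inr h3)

lemma inD {d : ℤ} (h : InertProduct d) : Pool.Agent.Run7.h743.IN.InD d :=
  fun p hp hpd => (h.2.2 p hp hpd).2

lemma not_dvd {p : ℕ} (h : InertPrime p) : ¬ p ∣ 14 := by
  obtain ⟨hp, h8, h7⟩ := h
  intro h
  have h2 : p ∣ 2 * 7 := h
  rcases (hp.dvd_mul).1 h2 with h3 | h3
  · have := (Nat.prime_dvd_prime_iff_eq hp Nat.prime_two).1 h3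
    omega
  · have := (Nat.prime_dvd_prime_iff_eq hp (by norm_num)).1 h3
    omega

/-- the second part -/
theorem withK (q : ℕ) [NeZero q] (hq : IsPrimePow q) (hco : q.Coprime 14)
    (K : IntermediateField ℚ ℂ) [NumberField K] (hK : K ≤ cyclotomic q)
    (hodd : Odd (Module.finrank ℚ K))
    (hcl : 3 ∣ q ∨ (Inert K 2 ∧ Inert K 7 ∧ Odd (Nat.card (NCl K))))
    (S : Finset ℤ) (hS : ∀ d ∈ S, InertProduct d ∧
      ∀ p : ℕ, p.Prime → (p : ℤ) ∣ d → p ∣ q ∨ Inert K p)
    (F₀ F : IntermediateField ℚ ℂ) [NumberField F₀] [NumberField F]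
    (hF₀ : F₀ = multiquadratic S) (hF : F = F₀ ⊔ K) : RankPartZero F₀ ∧ RankPartZero F := by
  obtain ⟨G₀, G, h1, h2, h3, h4, h5, h6, h7, h8⟩ :=
    Pool.Agent.Run7.h743.IN.mainM Pool.Agent.Results.MP_cd906c_nt.MultiquadraticTowers.parts q hq hco
      K hK hodd hcl S (fun d hd => ⟨(hS d hd).1.1, (hS d hd).1.2.1, fun p hp hpd =>
        ⟨not_dvd ((hS d hd).1.2.2 p hp hpd), (hS d hd).2 p hp hpd⟩⟩)
      (fun d hd => inD (hS d hd).1) F₀ F hF₀ hF
  exact ⟨of_main h1 h3 h5 h7, of_main h2 h4 h6 h8⟩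

instance nf_multiquadratic (S : Finset ℤ) : NumberField (multiquadratic S) where
  to_charZero := inferInstance
  to_finiteDimensional := by
    have hfin : {z : ℂ | ∃ d ∈ S, z ^ 2 = (d : ℂ)}.Finite := by
      have h1 : {z : ℂ | ∃ d ∈ S, z ^ 2 = (d : ℂ)} = ⋃ d ∈ S, {z : ℂ | z ^ 2 = (d : ℂ)} := by
        ext z
        simp
      rw [h1]
      refine Set.Finite.biUnion S.finite_toSet fun d _ => ?_
      have h2 : (Polynomial.X ^ 2 - Polynomial.C (d : ℂ)).Monic :=
        Polynomial.monic_X_pow_sub_C _ (by norm_num)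
      refine (Polynomial.rootSet_finite (Polynomial.X ^ 2 - Polynomial.C (d : ℂ)) ℂ).subset ?_
      intro z hz
      rw [Polynomial.mem_rootSet]
      refine ⟨h2.ne_zero, ?_⟩
      have hz' : z ^ 2 = (d : ℂ) := hz
      simp [hz']
    have hfi : Finite {z : ℂ | ∃ d ∈ S, z ^ 2 = (d : ℂ)} := hfin
    refine IntermediateField.finiteDimensional_adjoin (S := {z : ℂ | ∃ d ∈ S, z ^ 2 = (d : ℂ)}) ?_
    rintro z ⟨d, hd, hz⟩
    exact ⟨Polynomial.X ^ 2 - Polynomial.C (d : ℚ), Polynomial.monic_X_pow_sub_C _ (by norm_num), by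
      rw [Polynomial.eval₂_sub, Polynomial.eval₂_pow, Polynomial.eval₂_X,
        Polynomial.eval₂_C, hz, map_intCast, sub_self]⟩

/-- the real part of the field of `3^(n+1)`-th roots of unity -/
noncomputable def KK (n : ℕ) : IntermediateField ℚ ℂ :=
  IntermediateField.adjoin ℚ {z : ℂ | z ^ 3 ^ (n + 1) = 1} ⊓
    (AlgHom.fieldRange (Algebra.ofId ℝ ℂ |>.restrictScalars ℚ))

lemma mem_KK {n : ℕ} {z : ℂ} : z ∈ KK n ↔
    z ∈ IntermediateField.adjoin ℚ {z : ℂ | z ^ 3 ^ (n + 1) = 1} ∧ z.im = 0 := by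
  unfold KK
  rw [IntermediateField.mem_inf]
  refine and_congr_right fun _ => ?_
  constructor
  · rintro ⟨x, hx⟩
    rw [← hx]
    exact Complex.ofReal_im x
  · intro h
    exact ⟨z.re, Complex.ext rfl h.symm⟩

lemma KK_mono {n m : ℕ} (h : n ≤ m) : KK n ≤ KK m := by
  intro z hz
  rw [mem_KK] at hz ⊢
  refine ⟨?_, hz.2⟩
  refine IntermediateField.adjoin.mono ℚ _ _ ?_ hz.1
  intro w hw
  have hw' : w ^ 3 ^ (n + 1) = 1 := hw
  obtain ⟨k, hk⟩ : 3 ^ (n + 1) ∣ 3 ^ (m + 1) := pow_dvd_pow 3 (by omega)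
  show w ^ 3 ^ (m + 1) = 1
  rw [hk, pow_mul, hw', one_pow]

/-- the sign -/
lemma neg_one_pow_mod {p : ℕ} (hp : p % 2 = 1) : ((-1 : ℤ) ^ (p / 2) * p) % 4 = 1 := by
  rcases (by omega : p % 4 = 1 ∨ p % 4 = 3) with h | h
  · have h9 : Even (p / 2) := by
      rw [Nat.even_iff]
      omega
    rw [h9.neg_one_pow, one_mul]
    omega
  · have h9 : Odd (p / 2) := by
      rw [Nat.odd_iff]
      omega
    rw [h9.neg_one_pow]
    omega

/-- the properties of `p*` -/
lemma star {p : ℕ} (hp : InertPrime p) : InertProduct ((-1 : ℤ) ^ (p / 2) * p) ∧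
    ∀ l : ℕ, l.Prime → (l : ℤ) ∣ (-1 : ℤ) ^ (p / 2) * p → l = p := by
  have h1 : ∀ l : ℕ, l.Prime → (l : ℤ) ∣ (-1 : ℤ) ^ (p / 2) * p → l = p := by
    intro l hl h
    have h2 : (l : ℤ) ∣ p := by
      rcases neg_one_pow_eq_or ℤ (p / 2) with h3 | h3 <;> rw [h3] at h
      · simpa using h
      · simpa using h
    exact (Nat.prime_dvd_prime_iff_eq hl hp.1).1 (Int.natCast_dvd_natCast.1 h2)
  refine ⟨⟨?_, neg_one_pow_mod (by
    have := hp.2.1
    omega), fun l hl h => by rw [h1 l hl h]; exact hp⟩, h1⟩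
  rw [← Int.squarefree_natAbs, Int.natAbs_mul, Int.natAbs_pow, Int.natAbs_neg, Int.natAbs_one,
    one_pow, one_mul, Int.natAbs_natCast]
  exact hp.1.squarefree

/-- the finite subsets of the generators -/
theorem fin_gen (T : Finset ℂ) (hT : (T : Set ℂ) ⊆
      ({z : ℂ | ∃ p : ℕ, InertPrime p ∧ p % 9 ≠ 1 ∧ p % 9 ≠ 8 ∧ z ^ 2 = (-1) ^ (p / 2) * p} ∪
        {z : ℂ | z.im = 0 ∧ ∃ n : ℕ, z ∈ cyclotomic (3 ^ n)})) :
    ∃ (S : Finset ℤ) (n : ℕ), (∀ d ∈ S, InertProduct d ∧ ∀ l : ℕ, l.Prime → (l : ℤ) ∣ d →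
      (l % 9 ≠ 1 ∧ l % 9 ≠ 8)) ∧ (T : Set ℂ) ⊆ (multiquadratic S ⊔ KK n : IntermediateField ℚ ℂ) := by
  induction T using Finset.induction_on with
  | empty => exact ⟨∅, 0, fun d hd => absurd hd (Finset.notMem_empty d), by simp⟩
  | insert z T hz ih =>
    obtain ⟨S, n, hS, hTS⟩ := ih (fun x hx => hT (by
      rw [Finset.coe_insert]
      exact Set.mem_insert_of_mem _ hx))
    rcases hT (by rw [Finset.coe_insert]; exact Set.mem_insert _ _) with ⟨p, hp, h1, h8, h2⟩ |
      ⟨h1, m, h2⟩
    · obtain ⟨h3, h4⟩ := star hp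
      refine ⟨insert ((-1 : ℤ) ^ (p / 2) * p) S, n, ?_, ?_⟩
      · intro d hd
        rcases Finset.mem_insert.1 hd with rfl | hd
        · exact ⟨h3, fun l hl h => by rw [h4 l hl h]; exact ⟨h1, h8⟩⟩
        · exact hS d hd
      · have hmono : multiquadratic S ≤ multiquadratic (insert ((-1 : ℤ) ^ (p / 2) * p) S) := by
          refine IntermediateField.adjoin.mono ℚ _ _ ?_
          rintro w ⟨d, hd, hw⟩
          exact ⟨d, Finset.mem_insert_of_mem hd, hw⟩
        rw [Finset.coe_insert, Set.insert_subset_iff]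
        constructor
        · have h5 : z ∈ multiquadratic (insert ((-1 : ℤ) ^ (p / 2) * p) S) :=
            IntermediateField.subset_adjoin ℚ _ ⟨_, Finset.mem_insert_self _ _, by
              rw [h2]; push_cast; ring⟩
          exact (le_sup_left : multiquadratic (insert ((-1 : ℤ) ^ (p / 2) * p) S) ≤
            multiquadratic (insert ((-1 : ℤ) ^ (p / 2) * p) S) ⊔ KK n) h5
        · intro w hw
          exact (sup_le_sup_right hmono (KK n)) (hTS hw)
    · refine ⟨S, max n m, hS, ?_⟩
      rw [Finset.coe_insert, Set.insert_subset_iff]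
      constructor
      · have h5 : z ∈ KK (max n m) := by
          rw [mem_KK]
          refine ⟨?_, h1⟩
          refine IntermediateField.adjoin.mono ℚ _ _ ?_ h2
          intro w hw
          have hw' : w ^ 3 ^ m = 1 := hw
          obtain ⟨k, hk⟩ : 3 ^ m ∣ 3 ^ (max n m + 1) :=
            pow_dvd_pow 3 (by have := le_max_right n m; omega)
          show w ^ 3 ^ (max n m + 1) = 1
          rw [hk, pow_mul, hw', one_pow]
        exact (le_sup_right : KK (max n m) ≤ multiquadratic S ⊔ KK (max n m)) h5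
      · intro w hw
        exact (sup_le_sup_left (KK_mono (le_max_left n m)) (multiquadratic S)) (hTS hw)

/-- **Main theorem.**
(1) Let `F₀ = ℚ(√d : d ∈ S)`, where the `d` are squarefree integers `1` modulo `4`, positive or
negative, whose prime divisors are `3` or `5` modulo `8` and not squares modulo `7`.  Then the
`L`-function of `E = X_0(14)` over `F₀` is entire and not zero at `s = 1`, and `E(F₀)` is finite.
(2) Let `q` be a power of a prime, prime to `14`, and let `K ⊂ ℂ` be a number field of odd degree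
contained in the `q`-th cyclotomic field.  Suppose that `q` is a power of three (then `K` is a layer of
the cyclotomic `ℤ₃`-extension of `ℚ`), or that `2` and `7` are inert in `K` and the narrow class number
of `K` is odd.  If the prime divisors of the elements of `S` are inert in `K` or divide `q`, the same
holds over `F₀ K`.
(3) All the points of `E` over the infinite extension `U` of `ℚ` are torsion points. -/
theorem result :
    (∀ S : Finset ℤ, (∀ d ∈ S, InertProduct d) → RankPartZero (multiquadratic S)) ∧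
    (∀ (q : ℕ) [NeZero q], IsPrimePow q → q.Coprime 14 →
      ∀ (K : IntermediateField ℚ ℂ) [NumberField K], K ≤ cyclotomic q → Odd (Module.finrank ℚ K) →
      (3 ∣ q ∨ (Inert K 2 ∧ Inert K 7 ∧ Odd (Nat.card (NCl K)))) →
      ∀ S : Finset ℤ, (∀ d ∈ S, InertProduct d ∧
        ∀ p : ℕ, p.Prime → (p : ℤ) ∣ d → p ∣ q ∨ Inert K p) →
      ∀ (F : IntermediateField ℚ ℂ) [NumberField F], F = multiquadratic S ⊔ K → RankPartZero F) ∧
    ∀ P : (base E U).toAffine.Point, IsOfFinAddOrder P := by
  refine ⟨fun S hS => ?_, ?_, ?_⟩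
  · have h1 : (⊥ : IntermediateField ℚ ℂ) ≤ cyclotomic 3 := bot_le
    have hNF : NumberField (⊥ : IntermediateField ℚ ℂ) :=
      { to_charZero := inferInstance, to_finiteDimensional := inferInstance }
    refine (withK 3 Nat.prime_three.isPrimePow (by norm_num) ⊥ h1 (by
      rw [IntermediateField.finrank_bot]; exact odd_one) (Or.inl (dvd_refl 3)) S (fun d hd =>
        ⟨hS d hd, fun p hp _ => Or.inr ?_⟩) (multiquadratic S) (multiquadratic S) rfl
      (by rw [sup_bot_eq])).1
    exact Pool.Agent.Y682.XD.prime_tr (IntermediateField.botEquiv ℚ ℂ).symm.toRingEquiv p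
      (Pool.Agent.Y682.XF.prime_Q hp)
  · intro q _ hq hco K _ hK hodd hcl S hS F _ hF
    exact (withK q hq hco K hK hodd hcl S hS (multiquadratic S) F rfl hF).2
  · intro P
    match P with
    | 0 => exact IsOfFinAddOrder.zero
    | WeierstrassCurve.Affine.Point.some x y h =>
      obtain ⟨Tx, hTx, hx⟩ := IntermediateField.exists_finset_of_mem_adjoin x.2
      obtain ⟨Ty, hTy, hy⟩ := IntermediateField.exists_finset_of_mem_adjoin y.2
      obtain ⟨S, n, hS, hT⟩ := fin_gen (Tx ∪ Ty) (by
        rw [Finset.coe_union]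
        exact Set.union_subset hTx hTy)
      rw [Finset.coe_union, Set.union_subset_iff] at hT
      obtain ⟨hNK, hodd, hin⟩ := Pool.Agent.Run7.h743.IN.layer n (KK n) fun z => mem_KK
      have hNF : NumberField (multiquadratic S ⊔ KK n : IntermediateField ℚ ℂ) :=
        { to_charZero := inferInstance
          to_finiteDimensional := by
            have := (nf_multiquadratic S).to_finiteDimensional
            have := hNK.to_finiteDimensional
            exact IntermediateField.finiteDimensional_sup _ _ }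
      have : NeZero (3 ^ (n + 1)) := ⟨by positivity⟩
      have hR : RankPartZero (multiquadratic S ⊔ KK n : IntermediateField ℚ ℂ) := by
        refine (withK (3 ^ (n + 1)) (Nat.prime_three.isPrimePow.pow (by omega))
          (Nat.Coprime.pow_left _ (by norm_num)) (KK n) (fun z hz => (mem_KK.1 hz).1) hodd
          (Or.inl (dvd_pow_self 3 (by omega))) S (fun d hd => ⟨(hS d hd).1, fun p hp hpd => ?_⟩)
          (multiquadratic S) _ rfl rfl).2
        by_cases hp3 : p = 3
        · left
          rw [hp3]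
          exact dvd_pow_self 3 (by omega)
        · right
          obtain ⟨h1, h8⟩ := (hS d hd).2 p hp hpd
          refine hin p hp ?_
          have h3 : p % 9 ≠ 0 ∧ p % 9 ≠ 3 ∧ p % 9 ≠ 6 := by
            have : ¬ 3 ∣ p := fun h => hp3 ((Nat.prime_dvd_prime_iff_eq Nat.prime_three hp).1 h).symm
            omega
          omega
      obtain ⟨G, -, -, -, hfin, -⟩ := hR
      have hx' : (x : ℂ) ∈ (multiquadratic S ⊔ KK n : IntermediateField ℚ ℂ) :=
        (IntermediateField.adjoin_le_iff.2 hT.1) hx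
      have hy' : (y : ℂ) ∈ (multiquadratic S ⊔ KK n : IntermediateField ℚ ℂ) :=
        (IntermediateField.adjoin_le_iff.2 hT.2) hy
      exact Pool.Agent.Run7.h743.IN.tor_lift E (algebraMap U ℂ)
        (algebraMap (multiquadratic S ⊔ KK n : IntermediateField ℚ ℂ) ℂ) hfin x y h ⟨x, hx'⟩
        ⟨y, hy'⟩ rfl rfl

end Pool.Agent.Results.MP_413b36_nt.MultiquadraticInertFields
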