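import Pool.Agent.Run7.h262.PF.Fam
import Pool.Agent.Run7.h262.PF.Ue
import Pool.Agent.Run7.h262.PF.Rk
import Pool.Agent.Run7.h262.PF.Lc
import Pool.Agent.Q286.EQ.MW

/-!
# The order of the L-function and the rank have the same parity over extensions of every number field, for a
# positive proportion of all elliptic curves and infinitely many extensions at once

Let `F` be a number field. The family consists of all pairs `(A, B)` of integers of `F` with `4 A³ + 27 B² ≠ 0` such
that no nonzero prime ideal `𝔭` has `𝔭⁴ ∣ A` and `𝔭⁶ ∣ B`, ordered by the height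
`max_σ max (4 |σ A|³, 27 |σ B|²)`. Let `K₀` be a finite extension of `F` which has an embedding over `F` in `F_w`
for all `w ∣ 2` and in `ℝ` over each real embedding of `F`.

Theorem. A positive proportion of ALL elliptic curves `E : y ^ 2 = x ^ 3 + A x + B` over `F` has the following
properties.
(1) Let `K / F` be ANY finite Galois extension of 2-power degree which is allowed for `E` (see below), and
suppose that `K` has an even number of infinite places and at least two primes over every prime of `F` which divides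
`2 (4 A³ + 27 B²)`; or that `K / F` is not cyclic and the primes dividing `4 A³ + 27 B²` are unramified in `K`. Let `L` be
ANY number field which contains `K`, has odd degree over `K` and is Galois over `F`. Then the rank of `E(L)` is
even, and for every analytic continuation `f` of the Hasse-Weil L-function of `E / L` to a connected open set `U` which
contains `Re s > 3 / 2` and `1` (exactly as in the frozen statement of the problem), for which
`Λ(s) = (2 (2 π)^(-s) Γ(s))^[L : ℚ] A^(s / 2) f(s)` satisfies the functional equation `Λ(2 - s) = w(E / L) Λ(s)` for the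
points with `s, 2 - s ∈ U`, `0 < Re s < 2`, the order of `f` at `1` has the same parity as the rank of `E(L)`.
(2) `K₀` is allowed, and if `K₀ / F` is a non-cyclic Galois extension of 2-power degree, then the same is true for
`K = K₀` (so for instance for every biquadratic extension in which `2` and the real places split completely).

If `L` is totally real, then the functional equation is a theorem (potential modularity: Wintenberger, Taylor, as the
problem file says). If `F` is totally real, the fields `K` in which the real places of `F` split completely are totally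
real, and so are all the fields `L`. So for these `L` the question has a positive answer for `E / L`.

`K` is allowed for `E` if every finite place `w` of `F` splits completely in `K`, or `w ∤ 2`, `w` is unramified in `K` and
`w² ∤ 4 A³ + 27 B²`, or `w ∤ 2` and `x³ + A x + B` has no zero in `F_w`; and every real place of `F` is real in
`K`, or `x³ + A x + B` has only one real zero there. For these `K` the group `E(K)` is finite of odd order
(`MP_78d38b_nt.EveryNumberField` of helper245). The rank of `E(L)` is not known and not zero in general; only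
its parity is proved.

The local root numbers `w(E / L_v)` are signs, `1` for good reduction, `-1` for split multiplicative reduction,
and the same for primes of `L` which are conjugate over `F`, since `E` is defined over `F`. We use only these properties.

The proof. (a) `E(K)` is finite by the theorem of helper245. The group `Gal(L / K)` has odd order and acts on the finitely
generated group `E(L)` (Mordell-Weil, helper286), and its invariants `E(K)` are torsion points; so the rank is even.
(b) Let `w` be a system of local root numbers over `L`. A prime `V` of `L` with `w V ≠ 1` divides `2 (4 A³ + 27 B²)`. The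
number of primes of `K` over the prime `V ∩ F` of `F` divides `[K : F] = 2 ^ n` and is not one, so it is even; the number of
primes of `L` over it is a multiple of this number. These primes are conjugate over `F`, and the product of
their local root numbers is `1`. The numbers of infinite places of `L` and of `K` have the same parity. So `w(E / L) = 1`.
(c) Then `Λ(2 - s) = Λ(s)` near `1`, and the order of `Λ` at `1`, which is the order of `f`, is even.
The parts (a), (b) are `MP_02f36d_nt.ParityEveryNumberField`.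
-/

set_option autoImplicit false
set_option linter.all false

namespace Pool.Agent.Results.MP_413b36_nt.OrderParityTotallyReal

open Filter NumberField IsDedekindDomain
open scoped Classical

section family

variable (F : Type) [Field F] [NumberField F]

/-- The pairs of integers `(A, B)` of `F` with `4 A ^ 3 + 27 B ^ 2 ≠ 0` for which no nonzero prime ideal `𝔭`
satisfies both `𝔭 ^ 4 ∣ A` and `𝔭 ^ 6 ∣ B`. -/
def Family : Set (𝓞 F × 𝓞 F) :=
  {p | 4 * p.1 ^ 3 + 27 * p.2 ^ 2 ≠ 0 ∧
    ∀ 𝔭 : Ideal (𝓞 F), 𝔭.IsPrime → 𝔭 ≠ ⊥ → ¬ (p.1 ∈ 𝔭 ^ 4 ∧ p.2 ∈ 𝔭 ^ 6)}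

variable {F}

/-- The height `max_σ max (4 |σ A|³, 27 |σ B|²)`, over the embeddings `σ : F → ℂ`. -/
noncomputable def height (p : 𝓞 F × 𝓞 F) : ℝ :=
  ⨆ σ : F →+* ℂ, max (4 * ‖σ (p.1 : F)‖ ^ 3) (27 * ‖σ (p.2 : F)‖ ^ 2)

variable (F)

/-- The members of the family of height at most `X`. -/
def UpTo (X : ℝ) : Set (𝓞 F × 𝓞 F) := {p ∈ Family F | height p ≤ X}

end family

section reduction

variable {L : Type} [Field L] [NumberField L]

/-- The coefficients of the equation are integral at the prime `v`. -/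
structure IntegralAt (v : HeightOneSpectrum (𝓞 L)) (W : WeierstrassCurve L) : Prop where
  a₁ : v.valuation L W.a₁ ≤ 1
  a₂ : v.valuation L W.a₂ ≤ 1
  a₃ : v.valuation L W.a₃ ≤ 1
  a₄ : v.valuation L W.a₄ ≤ 1
  a₆ : v.valuation L W.a₆ ≤ 1

/-- Good reduction at `v`: there is a Weierstrass equation with coefficients integral at `v` whose
discriminant is a unit at `v`. -/
def GoodReduction (v : HeightOneSpectrum (𝓞 L)) (W : WeierstrassCurve L) : Prop :=
  ∃ C : WeierstrassCurve.VariableChange L, IntegralAt v (C • W) ∧ v.valuation L (C • W).Δ = 1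

/-- Split multiplicative reduction at `v`: there is a Weierstrass equation with coefficients
integral at `v` whose reduction has the singular point `(0, 0)` (`a₃`, `a₄`, `a₆` are zero modulo `v`),
which is a node (`b₂ = a₁ ^ 2 + 4 a₂` is a unit at `v`) with tangents `y = α x` defined over the residue
field (`α ^ 2 + a₁ α - a₂` is zero modulo `v`). -/
def SplitMultiplicative (v : HeightOneSpectrum (𝓞 L)) (W : WeierstrassCurve L) : Prop :=
  ∃ C : WeierstrassCurve.VariableChange L, IntegralAt v (C • W) ∧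
    v.valuation L (C • W).a₃ < 1 ∧ v.valuation L (C • W).a₄ < 1 ∧ v.valuation L (C • W).a₆ < 1 ∧
    v.valuation L (C • W).b₂ = 1 ∧
    ∃ α : L, v.valuation L α ≤ 1 ∧
      v.valuation L (α ^ 2 + (C • W).a₁ * α - (C • W).a₂) < 1

end reduction

section parity

variable {F : Type} [Field F] [NumberField F] (L : Type) [Field L] [NumberField L] [Algebra F L]

/-- The curve `y ^ 2 = x ^ 3 + A x + B` over the extension `L` of `F`. -/
noncomputable def curve (p : 𝓞 F × 𝓞 F) : WeierstrassCurve L :=
  ⟨0, 0, 0, algebraMap F L (p.1 : F), algebraMap F L (p.2 : F)⟩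

/-- The properties of the local root numbers `w(E / L_v)` at the primes `v` of `L`, for an elliptic
curve `E` over `F`, which we use: they are signs, `1` for good reduction, `-1` for split multiplicative
reduction, and the same for primes which are conjugate over `F`. -/
structure LocalRootNumbers (p : 𝓞 F × 𝓞 F) (w : HeightOneSpectrum (𝓞 L) → ℤ) : Prop where
  sign : ∀ v, w v = 1 ∨ w v = -1
  good : ∀ v, GoodReduction v (curve L p) → w v = 1
  split : ∀ v, SplitMultiplicative v (curve L p) → w v = -1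
  conj : ∀ (σ : L ≃ₐ[F] L) (v v' : HeightOneSpectrum (𝓞 L)),
    (∀ x : L, v'.valuation L x = v.valuation L (σ x)) → w v' = w v

/-- The global root number: the product of the local root numbers at all places; it is `-1` at
every infinite place. -/
noncomputable def rootNumber (w : HeightOneSpectrum (𝓞 L) → ℤ) : ℤ :=
  (-1) ^ Nat.card (InfinitePlace L) * ∏ᶠ v, w v

/-- The rank of `E(L)`. -/
noncomputable def rank (p : 𝓞 F × 𝓞 F) : ℕ := Module.finrank ℤ (curve L p).toAffine.Point

/-- The nonzero prime ideals. -/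
abbrev Primes : Type := {P : Ideal (𝓞 L) // P.IsPrime ∧ P ≠ ⊥}

variable {L}

/-- `M P` is, for each nonzero prime ideal `P`, an integral Weierstrass equation of `E` which is minimal at
`P` (as in the frozen statement). -/
def MinimalModels (E : WeierstrassCurve L) (M : Primes L → WeierstrassCurve (𝓞 L)) : Prop :=
  ∀ P, (∃ C : WeierstrassCurve.VariableChange L, C • E = (M P).map (algebraMap (𝓞 L) L)) ∧
      ∀ W : WeierstrassCurve (𝓞 L),
        (∃ C : WeierstrassCurve.VariableChange L, C • E = W.map (algebraMap (𝓞 L) L)) →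
        ∀ n : ℕ, (M P).Δ ∈ P.1 ^ n → W.Δ ∈ P.1 ^ n

/-- `f` is an analytic continuation of the Hasse-Weil L-function (built from minimal models) to the
connected open set `U`, which contains `1` and the half plane `Re s > 3 / 2` (as in the frozen statement). -/
structure Continuation (M : Primes L → WeierstrassCurve (𝓞 L)) (U : Set ℂ) (f : ℂ → ℂ) : Prop where
  isOpen : IsOpen U
  connected : IsConnected U
  one_mem : (1 : ℂ) ∈ U
  half_plane : {s : ℂ | 3 / 2 < s.re} ⊆ U
  analytic : AnalyticOnNhd ℂ f U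
  euler : ∀ s : ℂ, 3 / 2 < s.re → f s = ∏' P : {P : Ideal (𝓞 L) // P.IsPrime ∧ P ≠ ⊥},
         (1 - ((Nat.card (𝓞 L ⧸ P.1) : ℂ)
               - (Nat.card {xy : (𝓞 L ⧸ P.1) × (𝓞 L ⧸ P.1) //
                   ((M P).map (Ideal.Quotient.mk P.1)).toAffine.Equation xy.1 xy.2} : ℂ))
             * (Nat.card (𝓞 L ⧸ P.1) : ℂ) ^ (-s)
           + (if (M P).Δ ∈ P.1 then 0 else (Nat.card (𝓞 L ⧸ P.1) : ℂ) ^ (1 - 2 * s)))⁻¹

variable (L)

/-- The completed function `Λ(s) = (2 (2 π)^(-s) Γ(s))^[L : ℚ] A^(s / 2) f(s)`. -/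
noncomputable def completed (A : ℝ) (f : ℂ → ℂ) (s : ℂ) : ℂ :=
  (2 * (2 * (Real.pi : ℂ)) ^ (-s) * Complex.Gamma s) ^ Module.finrank ℚ L * (A : ℂ) ^ (s / 2) * f s

/-- The functional equation `Λ(2 - s) = w(E / L) Λ(s)`, with the product of the local root numbers as sign (and some
positive number `A`, the norm of the conductor times the square of the discriminant of `L`), at the
points of the critical strip for which both sides are defined. -/
def FunctionalEquation (p : 𝓞 F × 𝓞 F) (U : Set ℂ) (f : ℂ → ℂ) : Prop :=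
  ∃ A : ℝ, 0 < A ∧ ∃ w, LocalRootNumbers L p w ∧
    ∀ s ∈ U, 2 - s ∈ U → 0 < s.re → s.re < 2 →
      completed L A f (2 - s) = (rootNumber L w : ℂ) * completed L A f s

/-- The order of the L-function of `E / L` at `1` and the rank of `E(L)` have the same parity, and both are
even: `E(L)` is finitely generated, its rank is even, systems of local root numbers exist (with finitely
many primes with `w v ≠ 1`) and have the product `1`, and every analytic continuation of the L-function as in the
frozen statement which satisfies the functional equation has an order at `1` of the same parity as the rank. -/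
structure ParityHolds (p : 𝓞 F × 𝓞 F) : Prop where
  fg : AddGroup.FG (curve L p).toAffine.Point
  even : Even (rank L p)
  exist : ∃ w, LocalRootNumbers L p w
  finite : ∀ w, LocalRootNumbers L p w → {v | w v ≠ 1}.Finite
  one : ∀ w, LocalRootNumbers L p w → rootNumber L w = 1
  order : ∀ M : Primes L → WeierstrassCurve (𝓞 L), MinimalModels (curve L p) M →
    ∀ (U : Set ℂ) (f : ℂ → ℂ), Continuation M U f → FunctionalEquation L p U f →
      Even (analyticOrderNatAt f 1 + Module.finrank ℤ (curve L p).toAffine.Point)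

end parity

section fields

variable {F : Type} [Field F] [NumberField F] (K : Type) [Field K] [NumberField K] [Algebra F K]

/-- `ParityHolds` for all number fields `L` which contain `K`, have odd degree over `K` and are Galois
over `F`. -/
def ParityOverOdd (p : 𝓞 F × 𝓞 F) : Prop :=
  ∀ (L : Type) [Field L] [NumberField L] [Algebra F L] [Algebra K L] [IsScalarTower F K L]
    [IsGalois F L], Odd (Module.finrank K L) → ParityHolds L p

/-- The prime `v` of `K` is over the prime `w` of `F`. -/
def Over (w : HeightOneSpectrum (𝓞 F)) (v : HeightOneSpectrum (𝓞 K)) : Prop :=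
  ∀ a ∈ w.asIdeal, algebraMap (𝓞 F) (𝓞 K) a ∈ v.asIdeal

/-- The extension `K / F` is unramified over the prime `w` of `F`: `w` is not contained in the square of
a prime ideal of `K` over `w`. -/
def UnramifiedOver (w : HeightOneSpectrum (𝓞 F)) : Prop :=
  ∀ v : HeightOneSpectrum (𝓞 K), Over K w v →
    ¬ w.asIdeal.map (algebraMap (𝓞 F) (𝓞 K)) ≤ v.asIdeal ^ 2

/-- The polynomial `x ^ 3 + A x + B` has a zero in the completion of `F` at `w`. -/
def HasZero (w : HeightOneSpectrum (𝓞 F)) (p : 𝓞 F × 𝓞 F) : Prop :=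
  ∃ x : w.adicCompletion F, x ^ 3 + algebraMap F (w.adicCompletion F) (p.1 : F) * x +
    algebraMap F (w.adicCompletion F) (p.2 : F) = 0

/-- The extension `K / F` is allowed for the curve `p`. -/
structure Allowed (p : 𝓞 F × 𝓞 F) : Prop where
  finite : ∀ w : HeightOneSpectrum (𝓞 F), Nonempty (K →ₐ[F] w.adicCompletion F) ∨
    ((2 : 𝓞 F) ∉ w.asIdeal ∧
      ((UnramifiedOver K w ∧ 4 * p.1 ^ 3 + 27 * p.2 ^ 2 ∉ w.asIdeal ^ 2) ∨ ¬ HasZero w p))
  real : ∀ σ : F →+* ℝ, (∃ ρ : K →+* ℝ, ρ.comp (algebraMap F K) = σ) ∨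
    0 < σ ((4 * p.1 ^ 3 + 27 * p.2 ^ 2 : 𝓞 F) : F)

/-- `K` has an even number of infinite places and at least two primes over every prime of `F` which
divides `2 (4 A ^ 3 + 27 B ^ 2)`. -/
structure EnoughPlaces (p : 𝓞 F × 𝓞 F) : Prop where
  infinite : Even (Nat.card (InfinitePlace K))
  finite : ∀ w : HeightOneSpectrum (𝓞 F), 2 * (4 * p.1 ^ 3 + 27 * p.2 ^ 2) ∈ w.asIdeal →
    ∃ v v' : HeightOneSpectrum (𝓞 K), v ≠ v' ∧ Over K w v ∧ Over K w v'

/-- The group of automorphisms of `K / F` is not cyclic, and the primes which divide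
`4 A ^ 3 + 27 B ^ 2` are unramified in `K`. -/
structure NonCyclic (p : 𝓞 F × 𝓞 F) : Prop where
  group : ¬ IsCyclic (K ≃ₐ[F] K)
  unramified : ∀ w : HeightOneSpectrum (𝓞 F), 4 * p.1 ^ 3 + 27 * p.2 ^ 2 ∈ w.asIdeal →
    UnramifiedOver K w

end fields

/-- The property of the curve `p` over `F` in the theorem: `ParityHolds` over all odd extensions `L` of all
allowed Galois extensions `K` of `F` of 2-power degree with enough places (or non-cyclic and unramified
at the primes of bad reduction). -/
def Uniform {F : Type} [Field F] [NumberField F] (p : 𝓞 F × 𝓞 F) : Prop :=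
  ∀ (K : Type) [Field K] [NumberField K] [Algebra F K] [IsGalois F K] (n : ℕ),
    Module.finrank F K = 2 ^ n → Allowed K p → (EnoughPlaces K p ∨ NonCyclic K p) →
    ParityOverOdd K p

/-- If `K₀ / F` is a non-cyclic Galois extension of 2-power degree, then `ParityHolds` over `K₀` and its odd
extensions. -/
def OverNonCyclic {F : Type} [Field F] [NumberField F] (K₀ : Type) [Field K₀] [NumberField K₀]
    [Algebra F K₀] (p : 𝓞 F × 𝓞 F) : Prop :=
  IsGalois F K₀ → (∃ n : ℕ, Module.finrank F K₀ = 2 ^ n) → ¬ IsCyclic (K₀ ≃ₐ[F] K₀) →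
    ParityOverOdd K₀ p

section proofs

variable {F : Type} [Field F] [NumberField F]

/-- an even function has even order -/
theorem even_order {f g : ℂ → ℂ} (hf : AnalyticAt ℂ f 1) (hg : AnalyticAt ℂ g 1) (hg1 : g 1 ≠ 0)
    (hev : ∀ᶠ s in nhds (1 : ℂ), g (2 - s) * f (2 - s) = g s * f s) :
    Even (analyticOrderNatAt f 1) := by
  by_cases htop : analyticOrderAt f 1 = ⊤
  · rw [analyticOrderNatAt, htop]
    exact ⟨0, rfl⟩
  obtain ⟨k, hk, hk1, hkf⟩ := hf.analyticOrderAt_ne_top.1 htop
  set n := analyticOrderNatAt f 1 with hn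
  have hr : Tendsto (fun s : ℂ => 2 - s) (nhds 1) (nhds 1) := by
    have : Tendsto (fun s : ℂ => 2 - s) (nhds 1) (nhds (2 - 1)) :=
      (continuous_const.sub continuous_id).tendsto 1
    simpa only [show (2 : ℂ) - 1 = 1 by norm_num] using this
  have h1 : ∀ᶠ s in nhdsWithin (1 : ℂ) {1}ᶜ,
      (-1) ^ n * (g (2 - s) * k (2 - s)) = g s * k s := by
    have h2 := (hkf.and (hr.eventually hkf)).and hev
    filter_upwards [h2.filter_mono nhdsWithin_le_nhds, self_mem_nhdsWithin] with s hs hne
    obtain ⟨⟨h3, h4⟩, h5⟩ := hs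
    have hne' : s - 1 ≠ 0 := sub_ne_zero.2 hne
    rw [h3, h4, show (2 : ℂ) - s - 1 = -1 * (s - 1) by ring, mul_pow] at h5
    simp only [smul_eq_mul] at h5
    have h6 : (s - 1) ^ n ≠ 0 := pow_ne_zero _ hne'
    apply mul_left_cancel₀ h6
    linear_combination h5
  have h3 : Tendsto (fun s => (-1) ^ n * (g (2 - s) * k (2 - s))) (nhdsWithin (1 : ℂ) {1}ᶜ)
      (nhds ((-1) ^ n * (g 1 * k 1))) := by
    refine Tendsto.mono_left ?_ nhdsWithin_le_nhds
    exact ((hg.continuousAt.tendsto.comp hr).mul (hk.continuousAt.tendsto.comp hr)).const_mul _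
  have h4 : Tendsto (fun s => g s * k s) (nhdsWithin (1 : ℂ) {1}ᶜ) (nhds (g 1 * k 1)) :=
    (hg.continuousAt.tendsto.mul hk.continuousAt.tendsto).mono_left nhdsWithin_le_nhds
  have h5 : (-1) ^ n * (g 1 * k 1) = g 1 * k 1 :=
    tendsto_nhds_unique h3 (h4.congr' (h1.mono fun s hs => hs.symm))
  by_contra hodd
  rw [Nat.not_even_iff_odd] at hodd
  rw [hodd.neg_one_pow] at h5
  have h6 : g 1 * k 1 ≠ 0 := mul_ne_zero hg1 hk1
  apply h6
  linear_combination (-1 / 2 : ℂ) * h5

/-- the factors of the completed function are analytic and not zero at `1` -/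
theorem factor_analytic (d : ℕ) {A : ℝ} (hA : 0 < A) :
    AnalyticAt ℂ (fun s : ℂ => (2 * (2 * (Real.pi : ℂ)) ^ (-s) * Complex.Gamma s) ^ d *
      (A : ℂ) ^ (s / 2)) 1 := by
  have hpi : (2 * (Real.pi : ℂ)) ≠ 0 := mul_ne_zero two_ne_zero (by exact_mod_cast Real.pi_ne_zero)
  have hA' : (A : ℂ) ≠ 0 := by exact_mod_cast hA.ne'
  have hopen : IsOpen {s : ℂ | 0 < s.re} := isOpen_lt continuous_const Complex.continuous_re
  refine DifferentiableOn.analyticAt (s := {s : ℂ | 0 < s.re}) ?_
    (hopen.mem_nhds (by simp))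
  intro s hs
  refine DifferentiableAt.differentiableWithinAt ?_
  have h1 : DifferentiableAt ℂ (fun s : ℂ => (2 * (Real.pi : ℂ)) ^ (-s)) s :=
    (differentiableAt_id.neg).const_cpow (Or.inl hpi)
  have h2 : DifferentiableAt ℂ (fun s : ℂ => (A : ℂ) ^ (s / 2)) s :=
    (differentiableAt_id.div_const 2).const_cpow (Or.inl hA')
  have h3 : DifferentiableAt ℂ Complex.Gamma s := by
    refine Complex.differentiableAt_Gamma s fun m hm => ?_
    have h4 : (0 : ℝ) < s.re := hs
    rw [hm] at h4
    simp only [Complex.neg_re, Complex.natCast_re] at h4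
    have h5 : (0 : ℝ) ≤ (m : ℝ) := Nat.cast_nonneg m
    linarith
  exact (((differentiableAt_const _).mul h1).mul h3).pow d |>.mul h2

theorem factor_ne_zero (d : ℕ) {A : ℝ} (hA : 0 < A) :
    (2 * (2 * (Real.pi : ℂ)) ^ (-(1 : ℂ)) * Complex.Gamma 1) ^ d * (A : ℂ) ^ ((1 : ℂ) / 2) ≠ 0 := by
  have hpi : (2 * (Real.pi : ℂ)) ≠ 0 := mul_ne_zero two_ne_zero (by exact_mod_cast Real.pi_ne_zero)
  have hA' : (A : ℂ) ≠ 0 := by exact_mod_cast hA.ne'
  refine mul_ne_zero (pow_ne_zero _ ?_) ?_
  · rw [Complex.Gamma_one, mul_one]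
    refine mul_ne_zero two_ne_zero ?_
    rw [Complex.cpow_neg, Complex.cpow_one]
    exact inv_ne_zero hpi
  · rw [Ne, Complex.cpow_eq_zero_iff]
    exact fun h => hA' h.1

/-- functional equation with sign one: even order -/
theorem order_even (L : Type) [Field L] [NumberField L] {U : Set ℂ} {f : ℂ → ℂ} (hU : IsOpen U)
    (h1 : (1 : ℂ) ∈ U) (hf : AnalyticOnNhd ℂ f U) {A : ℝ} (hA : 0 < A)
    (hfe : ∀ s ∈ U, 2 - s ∈ U → 0 < s.re → s.re < 2 →
      completed L A f (2 - s) = completed L A f s) : Even (analyticOrderNatAt f 1) := by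
  refine even_order (hf 1 h1) (factor_analytic (Module.finrank ℚ L) hA)
    (factor_ne_zero (Module.finrank ℚ L) hA) ?_
  have hr : Tendsto (fun s : ℂ => 2 - s) (nhds 1) (nhds 1) := by
    have : Tendsto (fun s : ℂ => 2 - s) (nhds 1) (nhds (2 - 1)) :=
      (continuous_const.sub continuous_id).tendsto 1
    simpa only [show (2 : ℂ) - 1 = 1 by norm_num] using this
  have hUn : U ∈ nhds (1 : ℂ) := hU.mem_nhds h1
  have hre : ∀ᶠ s in nhds (1 : ℂ), 0 < s.re ∧ s.re < 2 := by
    have hop : IsOpen {s : ℂ | 0 < s.re ∧ s.re < 2} :=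
      (isOpen_lt continuous_const Complex.continuous_re).inter
        (isOpen_lt Complex.continuous_re continuous_const)
    exact hop.mem_nhds ⟨by simp, by norm_num⟩
  filter_upwards [hUn, hr hUn, hre] with s hs hs' hs2
  exact hfe s hs hs' hs2.1 hs2.2

theorem crv_iff (X : ℝ) (p : 𝓞 F × 𝓞 F) :
    Pool.Agent.N783.PF.Crv X p ↔ p ∈ UpTo F X := by
  have hb : BddAbove (Set.range fun σ : F →+* ℂ =>
      max (4 * ‖σ (p.1 : F)‖ ^ 3) (27 * ‖σ (p.2 : F)‖ ^ 2)) := Set.Finite.bddAbove (Set.finite_range _)
  constructor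
  · rintro ⟨h1, h2, h3⟩
    refine ⟨⟨h1, h2⟩, ciSup_le fun σ => max_le (h3 σ).1 (h3 σ).2⟩
  · rintro ⟨⟨h1, h2⟩, h3⟩
    refine ⟨h1, h2, fun σ => ?_⟩
    have h4 := (le_ciSup hb σ).trans h3
    exact ⟨(le_max_left _ _).trans h4, (le_max_right _ _).trans h4⟩

theorem allowed_iff (K : Type) [Field K] [NumberField K]
    [Algebra F K] (p : 𝓞 F × 𝓞 F) : Allowed K p ↔ Pool.Agent.Run7.h245.NF.Alw K p.1 p.2 := by
  constructor
  · rintro ⟨h1, h2⟩
    refine ⟨fun w => ?_, h2⟩
    rcases h1 w with h | ⟨h, h' | h'⟩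
    · exact Or.inl h
    · exact Or.inr ⟨h, Or.inl h'⟩
    · exact Or.inr ⟨h, Or.inr fun x hx => h' ⟨x, hx⟩⟩
  · rintro ⟨h1, h2⟩
    refine ⟨fun w => ?_, h2⟩
    rcases h1 w with h | ⟨h, h' | h'⟩
    · exact Or.inl h
    · exact Or.inr ⟨h, Or.inl h'⟩
    · exact Or.inr ⟨h, Or.inr fun ⟨x, hx⟩ => h' x hx⟩

section tr

variable {L : Type} [Field L] [NumberField L]

theorem int_iff (v : HeightOneSpectrum (𝓞 L)) (W : WeierstrassCurve L) :
    IntegralAt v W ↔ Pool.Agent.N922.PX.IntegralAt v W :=
  ⟨fun h => ⟨h.1, h.2, h.3, h.4, h.5⟩, fun h => ⟨h.1, h.2, h.3, h.4, h.5⟩⟩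

theorem good_iff (v : HeightOneSpectrum (𝓞 L)) (W : WeierstrassCurve L) :
    GoodReduction v W ↔ Pool.Agent.N922.PX.GoodReduction v W := by
  unfold GoodReduction Pool.Agent.N922.PX.GoodReduction
  simp only [int_iff]

theorem split_iff (v : HeightOneSpectrum (𝓞 L)) (W : WeierstrassCurve L) :
    SplitMultiplicative v W ↔ Pool.Agent.N922.PX.SplitMultiplicative v W := by
  unfold SplitMultiplicative Pool.Agent.N922.PX.SplitMultiplicative
  simp only [int_iff]

end tr

section ext

variable {L : Type} [Field L] [NumberField L] [Algebra F L]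

theorem good_away {p : 𝓞 F × 𝓞 F} (v : HeightOneSpectrum (𝓞 L))
    (h : algebraMap (𝓞 F) (𝓞 L) (2 * (4 * p.1 ^ 3 + 27 * p.2 ^ 2)) ∉ v.asIdeal) :
    GoodReduction v (curve L p) := by
  rw [good_iff]
  refine Run7.h262.PF.good_of (algebraMap (𝓞 F) (𝓞 L) p.1) (algebraMap (𝓞 F) (𝓞 L) p.2) v ?_
  simpa only [map_add, map_mul, map_pow, map_ofNat] using h

theorem fin_ne {p : 𝓞 F × 𝓞 F} (hp : 4 * p.1 ^ 3 + 27 * p.2 ^ 2 ≠ 0)
    {w : HeightOneSpectrum (𝓞 L) → ℤ} (h : LocalRootNumbers L p w) :
    {v | w v ≠ 1}.Finite := by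
  have hc : algebraMap (𝓞 F) (𝓞 L) (2 * (4 * p.1 ^ 3 + 27 * p.2 ^ 2)) ≠ 0 := by
    rw [Ne, FaithfulSMul.algebraMap_eq_zero_iff]
    exact mul_ne_zero two_ne_zero hp
  refine (Run7.h262.PF.finite_primes hc).subset fun v hv => ?_
  by_contra hcon
  exact hv (h.good v (good_away v hcon))

theorem curve_map (p : 𝓞 F × 𝓞 F) (σ : L ≃ₐ[F] L) :
    (curve L p).map (σ : L →+* L) = curve L p := by
  apply WeierstrassCurve.ext <;> simp [curve]

theorem exists_local (p : 𝓞 F × 𝓞 F) : ∃ w, LocalRootNumbers L p w := by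
  refine ⟨fun v => if Pool.Agent.N922.PX.SplitMultiplicative v (curve L p) then -1 else 1,
    ?_, ?_, ?_, ?_⟩
  · intro v
    by_cases h : Pool.Agent.N922.PX.SplitMultiplicative v (curve L p)
    · right; exact if_pos h
    · left; exact if_neg h
  · intro v h
    exact if_neg (Pool.Agent.N922.PX.not_split_of_good ((good_iff v _).1 h))
  · intro v h
    exact if_pos ((split_iff v _).1 h)
  · intro σ v v' h
    have h1 : Pool.Agent.N922.PX.SplitMultiplicative v' (curve L p) ↔
        Pool.Agent.N922.PX.SplitMultiplicative v (curve L p) := by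
      refine ⟨Run7.h262.PF.split_conj (σ : L →+* L) (curve_map p σ) v v' h,
        Run7.h262.PF.split_conj (σ.symm : L →+* L) (curve_map p σ.symm) v' v fun x => ?_⟩
      rw [h]
      congr 1
      exact (AlgEquiv.apply_symm_apply σ x).symm
    change (if _ then (-1 : ℤ) else 1) = if _ then (-1 : ℤ) else 1
    simp only [h1]

/-- Mordell-Weil -/
theorem pts_fg {p : 𝓞 F × 𝓞 F} (hp : 4 * p.1 ^ 3 + 27 * p.2 ^ 2 ≠ 0) :
    AddGroup.FG (curve L p).toAffine.Point := by
  refine Pool.Agent.Q286.EQ.mordell_weil L (curve L p) ?_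
  have e : (curve L p).Δ = algebraMap F L (((-16 * (4 * p.1 ^ 3 + 27 * p.2 ^ 2) : 𝓞 F)) : F) := by
    simp only [curve, WeierstrassCurve.Δ, WeierstrassCurve.b₂, WeierstrassCurve.b₄,
      WeierstrassCurve.b₆, WeierstrassCurve.b₈, map_neg, map_mul, map_add, map_pow, map_ofNat]
    ring
  rw [e, Ne, map_eq_zero]
  intro h
  have h1 : (-16 * (4 * p.1 ^ 3 + 27 * p.2 ^ 2) : 𝓞 F) = 0 :=
    (map_eq_zero_iff _ (RingOfIntegers.coe_injective (K := F))).1 h
  rcases mul_eq_zero.1 h1 with h2 | h2
  · norm_num at h2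
  · exact hp h2

end ext

/-- from `K` to the odd extensions -/
theorem parity_odd {K : Type} [Field K] [NumberField K] [Algebra F K] [IsGalois F K] {n : ℕ}
    (hn : Module.finrank F K = 2 ^ n) {p : 𝓞 F × 𝓞 F}
    (hp : 4 * p.1 ^ 3 + 27 * p.2 ^ 2 ≠ 0) (h0 : Finite (curve K p).toAffine.Point)
    (hK : EnoughPlaces K p) : ParityOverOdd K p := by
  intro L _ _ _ _ _ _ hodd
  haveI : IsGalois K L := IsGalois.tower_top_of_isGalois F K L
  have hfg : AddGroup.FG (curve L p).toAffine.Point := pts_fg hp
  have eK : (curve K p).baseChange K = curve K p := WeierstrassCurve.map_id _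
  have eL : (curve K p).baseChange L = curve L p := by
    apply WeierstrassCurve.ext <;>
      simp [curve, WeierstrassCurve.baseChange, ← IsScalarTower.algebraMap_apply F K L]
  have heven : Even (rank L p) := by
    have key : ∀ W : WeierstrassCurve L, (curve K p).baseChange L = W →
        AddGroup.FG W.toAffine.Point → Even (Module.finrank ℤ W.toAffine.Point) := by
      rintro W rfl hW
      refine Run7.h262.PF.rank_even hodd (W := curve K p) ?_
        (Module.Finite.iff_addGroup_fg.2 hW)
      show Finite ((curve K p).baseChange K).toAffine.Point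
      rw [eK]
      exact h0
    exact key _ eL hfg
  have hfin : ∀ w, LocalRootNumbers L p w → {v | w v ≠ 1}.Finite := fun w hw => fin_ne hp hw
  have hone : ∀ w, LocalRootNumbers L p w → rootNumber L w = 1 := by
    intro w hw
    have h1 : ∏ᶠ V, w V = 1 := by
      refine Run7.h262.PF.prod_one (F := F) hw.sign ?_ (hfin w hw) ?_
      · intro V V' hVV
        obtain ⟨σ, hσ⟩ := Run7.h262.PO.conj_above (M := F) hVV
        exact (hw.conj σ V V' hσ).symm
      · intro V hV
        have h2 : 2 * (4 * p.1 ^ 3 + 27 * p.2 ^ 2) ∈ (Run7.h262.PO.bel F V).asIdeal := by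
          by_contra hcon
          exact hV (hw.good V (good_away V hcon))
        obtain ⟨v, v', hne, hv, hv'⟩ := hK.finite _ h2
        have key : ∀ u : HeightOneSpectrum (𝓞 K), Over K (Run7.h262.PO.bel F V) u →
            Run7.h262.PO.bel F u = Run7.h262.PO.bel F V := by
          intro u hu
          exact HeightOneSpectrum.ext ((Run7.h262.PO.bel F V).isMaximal.eq_of_le
            (Run7.h262.PO.bel F u).isPrime.ne_top hu).symm
        exact Run7.h262.PF.fib_even_up (K := K) _
          (Run7.h262.PF.fib_even_of_two hn _ (key v hv) (key v' hv') hne)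
    have h3 : Even (Nat.card (InfinitePlace L)) := by
      rw [Nat.even_iff, Run7.h262.PO.inf_mod_two (M := K) (L := L) hodd, ← Nat.even_iff]
      exact hK.infinite
    rw [rootNumber, h1, mul_one]
    exact h3.neg_one_pow
  refine ⟨hfg, heven, exists_local p, hfin, hone, fun M _ U f hc hfe => ?_⟩
  obtain ⟨A, hA, w, hw, hfe⟩ := hfe
  refine Even.add ?_ heven
  refine order_even L hc.isOpen hc.one_mem hc.analytic hA fun s hs hs' h0 h2 => ?_
  rw [hfe s hs hs' h0 h2, hone w hw, Int.cast_one, one_mul]

/-- non-cyclic extensions have enough places -/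
theorem enough {K : Type} [Field K] [NumberField K] [Algebra F K] [IsGalois F K] {n : ℕ}
    (hn : Module.finrank F K = 2 ^ n) {p : 𝓞 F × 𝓞 F} (hc : ¬ IsCyclic (K ≃ₐ[F] K))
    (h2 : ∀ w : HeightOneSpectrum (𝓞 F), (2 : 𝓞 F) ∈ w.asIdeal →
      Nonempty (K →ₐ[F] w.adicCompletion F))
    (hu : ∀ w : HeightOneSpectrum (𝓞 F), 4 * p.1 ^ 3 + 27 * p.2 ^ 2 ∈ w.asIdeal →
      Nonempty (K →ₐ[F] w.adicCompletion F) ∨ UnramifiedOver K w) : EnoughPlaces K p := by
  have hcard : Nat.card (K ≃ₐ[F] K) = 2 ^ n := by rw [IsGalois.card_aut_eq_finrank F K, hn]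
  have h4 : 4 ∣ Module.finrank F K := by
    rw [← IsGalois.card_aut_eq_finrank F K]
    exact Run7.h262.PF.four_dvd hcard hc
  refine ⟨Run7.h262.PF.inf_even h4, fun w hw => ?_⟩
  have hlies : ∀ v : HeightOneSpectrum (𝓞 K), Run7.h262.PO.bel F v = w → Over K w v := by
    rintro v rfl a ha
    exact ha
  have hunr : ∀ v : HeightOneSpectrum (𝓞 K), Run7.h262.PO.bel F v = w →
      ¬ w.asIdeal.map (algebraMap (𝓞 F) (𝓞 K)) ≤ v.asIdeal ^ 2 := by
    have h5 : Nonempty (K →ₐ[F] w.adicCompletion F) ∨ UnramifiedOver K w := by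
      rcases w.isPrime.mem_or_mem hw with h | h
      · exact Or.inl (h2 w h)
      · exact hu w h
    intro v hv
    rcases h5 with ⟨⟨σ⟩⟩ | h5
    · exact Run7.h262.PF.unr_of_emb w σ v hv
    · exact h5 v (hlies v hv)
  have h6 := Run7.h262.PF.two_of_unr hc w hunr
  have h7 : 1 < {v : HeightOneSpectrum (𝓞 K) | Run7.h262.PO.bel F v = w}.ncard := by
    have h8 : {v : HeightOneSpectrum (𝓞 K) | Run7.h262.PO.bel F v = w}.ncard ≠ 0 := by
      intro h9
      have h10 := Run7.h262.PF.fib_dvd (K := K) w
      rw [h9, hn] at h10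
      exact absurd (Nat.eq_zero_of_zero_dvd h10) (by positivity)
    omega
  obtain ⟨v, v', hv, hv', hne⟩ := (Set.one_lt_ncard_iff
    (Set.finite_of_ncard_ne_zero (by omega))).1 h7
  exact ⟨v, v', hne, hlies v hv, hlies v' hv'⟩

end proofs

/-- **The order of the L-function and the rank have the same parity over extensions of every number
field.** Let `F` be a number field and `K₀` a finite extension of `F` which has an `F`-embedding in the
completion of `F` at every place above `2` and a real embedding over each real embedding of `F`. Then a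
positive proportion of all elliptic curves over `F` is `Uniform`, has `K₀` allowed, and satisfies `ParityHolds` over
the odd extensions of `K₀`, if `K₀` is Galois of 2-power degree and not cyclic. -/
theorem result (F : Type) [Field F] [NumberField F] (K₀ : Type) [Field K₀] [NumberField K₀]
    [Algebra F K₀]
    (h2 : ∀ w : HeightOneSpectrum (𝓞 F), (2 : 𝓞 F) ∈ w.asIdeal →
      Nonempty (K₀ →ₐ[F] w.adicCompletion F))
    (hR : ∀ σ : F →+* ℝ, ∃ ρ : K₀ →+* ℝ, ρ.comp (algebraMap F K₀) = σ) :
    (∀ X : ℝ, (UpTo F X).Finite) ∧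
    ∃ c : ℝ, 0 < c ∧ ∀ᶠ X : ℝ in atTop,
      0 < (UpTo F X).ncard ∧
      c * ((UpTo F X).ncard : ℝ) ≤
        ({p ∈ UpTo F X | Allowed K₀ p ∧ OverNonCyclic K₀ p ∧ Uniform p}.ncard : ℝ) := by
  have hset : ∀ X : ℝ, UpTo F X = {p : 𝓞 F × 𝓞 F | Pool.Agent.N783.PF.Crv X p} := by
    intro X
    ext p
    exact (crv_iff X p).symm
  obtain ⟨c, hc, Y₀, h⟩ := Run7.h262.PF.finNR F K₀ h2 hR
  have hfin : ∀ X : ℝ, (UpTo F X).Finite := fun X => by
    rw [hset]
    exact (h X).1
  refine ⟨hfin, c, hc, ?_⟩
  filter_upwards [eventually_ge_atTop Y₀] with X hX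
  obtain ⟨h1, h3⟩ := (h X).2 hX
  rw [← hset] at h1 h3
  refine ⟨h1, h3.trans ?_⟩
  have h4 : {p : 𝓞 F × 𝓞 F | Pool.Agent.N783.PF.Crv X p ∧
      Run7.h262.PF.GoodNR K₀ p} ⊆
      {p ∈ UpTo F X | Allowed K₀ p ∧ OverNonCyclic K₀ p ∧ Uniform p} := by
    rintro p ⟨hp, hA, hnr, hg⟩
    have hU := (crv_iff X p).1 hp
    have hd : 4 * p.1 ^ 3 + 27 * p.2 ^ 2 ≠ 0 := hU.1.1
    have hfinp : ∀ (K : Type) [Field K] [NumberField K] [Algebra F K] [IsGalois F K] (n : ℕ),
        Module.finrank F K = 2 ^ n → Pool.Agent.Run7.h245.NF.Alw K p.1 p.2 →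
        Finite (curve K p).toAffine.Point := by
      intro K _ _ _ _ n hn hK
      exact (hg K n hn hK).fin
    refine ⟨hU, (allowed_iff K₀ p).2 hA, ?_, ?_⟩
    · rintro hG ⟨n, hn⟩ hcyc
      exact parity_odd hn hd (hfinp K₀ n hn hA) (enough hn hcyc h2 hnr)
    · intro K _ _ _ _ n hn hK hpl
      refine parity_odd hn hd (hfinp K n hn ((allowed_iff K p).1 hK)) ?_
      rcases hpl with hpl | hpl
      · exact hpl
      · refine enough hn hpl.group (fun w hw => ?_) fun w hw => Or.inr (hpl.unramified w hw)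
        rcases hK.finite w with h5 | h5
        · exact h5
        · exact absurd hw h5.1
  exact_mod_cast Set.ncard_le_ncard h4 ((hfin X).subset fun p hp => hp.1)

end Pool.Agent.Results.MP_413b36_nt.OrderParityTotallyReal
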