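import Pool.Agent.Run7.h460.QD.SubNF
import Pool.Agent.R432.JG.Common

/-!
# Order `=` rank for the products of a sequence of multipliers, over composita of pure cubic fields

`E_n : y² + n y = x³` (`E_{n r³}` is isomorphic to `E_n`), `M` a finite set of primes `≡ 1` modulo `9`. The
number fields are `L = ℚ(∛l : l ∈ S)`, `S ⊆ M`, of degree `3 ^ |S|`; for `S` nonempty they are not Galois
over `ℚ`. `D` runs through the family of the squarefree numbers, prime to `3` and `M`, not `±1` modulo `9`,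
with exactly one prime factor `≡ 2` modulo `3`. The multipliers are the cube-free numbers prime to `M` all
of whose prime factors are `1` modulo `9`. `c = ∏_{i ≥ 1} (1 - 3^{-i}) = 0.5601...`.

`Good M n`: for all `S ⊆ M` and `L = ℚ(∛l : l ∈ S)` the group `E_n(L)` is finite, and every meromorphic
(so every analytic) continuation of the `L`-function of `E_n` over `L` (the product of the Euler factors of
minimal models at all finite places) to an open connected set which contains the half plane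
`Re s > 3 / 2` and the point `1` has the order `0`, the rank, at `s = 1`; and it has a meromorphic
continuation to `ℂ`.

**Theorem.** Let `A` be an arbitrary subset of the family of upper density at least `δ > 0`, `0 < η < 1`, and
let `R` be an infinite set of multipliers. There are different `m_0, m_1, ... ∈ R` such that for every `n` the
`D ∈ A` with `Good M (D ∏_{i ∈ J} m_i)` for all nonempty subsets `J` of `{0, ..., n - 1}` have upper density
at least `(1 - η) δ c ^ ((2 ^ n - 1) 3 ^ |M|)` in the family, as if the events were independent of each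
other and of `A`. If `A` is the whole family, then `Good M (D t)` holds at the same time for all `t` in any
finite set `T` of multipliers with lower density at least `c ^ (|T| 3 ^ |M|)`.

In particular Q1 holds over all these fields `L` for all the curves `E_n`, `n = D ∏_{i ∈ J} m_i`.

The arithmetic over `L` is that of the starting project R432/JG (project JL: helper962, helper159,
helper152, helper916, helper258, helper432). The passage to dense sets is the second moment method, after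
helper428. For one multiplier, with root numbers, see `MP_02f36d_nt/TwistsInDenseSets`.
-/

set_option autoImplicit false

open scoped Classical
open Filter Topology NumberField IsDedekindDomain

namespace Pool.Agent.Results.MP_413b36_nt.ProductsOfMultipliers

open Pool.Agent.H341R2.EC (IsMinAt)
open Pool.Agent.R433.MD (lf)

/-- The curve `E_n : y² + n y = x³` over `L`. -/
def curve (n : ℕ) (L : Type) [Field L] : WeierstrassCurve L := ⟨0, 0, (n : L), 0, 0⟩

/-- The family: `D` is squarefree, not divisible by `3` and by the elements of `M`, not `±1` modulo `9`,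
and divisible by exactly one prime that is `2` modulo `3`. -/
def Family (M : Finset ℕ) (D : ℕ) : Prop :=
  Squarefree D ∧ ¬ 3 ∣ D ∧ D % 9 ≠ 1 ∧ D % 9 ≠ 8 ∧ (∀ l ∈ M, ¬ l ∣ D) ∧
    ∃ q : ℕ, q.Prime ∧ q % 3 = 2 ∧ q ∣ D ∧ ∀ p : ℕ, p.Prime → p ∣ D → p ≠ q → p % 3 = 1

/-- The multipliers: cube-free numbers not divisible by the elements of `M`, all of whose prime factors
are `1` modulo `9`. -/
def IsMultiplier (M : Finset ℕ) (m : ℕ) : Prop :=
  m ≠ 0 ∧ (∀ p : ℕ, p.Prime → ¬ p ^ 3 ∣ m) ∧ (∀ p : ℕ, p.Prime → p ∣ m → p % 9 = 1) ∧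
    ∀ l ∈ M, ¬ l ∣ m

/-- The cube-free part of `n`: the exponents are reduced modulo `3`. -/
noncomputable def cubeFreePart (n : ℕ) : ℕ := n.factorization.prod fun p e => p ^ (e % 3)

/-- `L` is generated by cube roots of the elements of `S`. -/
def Radical (S : Finset ℕ) (L : Type) [Field L] : Prop :=
  ∃ r : ℕ → L, (∀ l ∈ S, r l ^ 3 = (l : L)) ∧ ∀ F : Subfield L, (∀ l ∈ S, r l ∈ F) → F = ⊤

/-- `f` is a meromorphic continuation of the `L`-function of `E_n` over `L` to the connected open set `U`: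
`U` contains the half plane `Re s > 3 / 2` and the point `1`, `f` is meromorphic on `U`, and for
`Re s > 3 / 2` it is the product of the Euler factors of models of the curve that are minimal at the
finite places. -/
def IsContinuation (n : ℕ) (L : Type) [Field L] [NumberField L] (U : Set ℂ) (f : ℂ → ℂ) : Prop :=
  IsOpen U ∧ IsPreconnected U ∧ {s : ℂ | 3 / 2 < s.re} ⊆ U ∧ (1 : ℂ) ∈ U ∧ MeromorphicOn f U ∧
    ∃ V : HeightOneSpectrum (𝓞 L) → WeierstrassCurve (𝓞 L),
      (∀ v, IsMinAt (curve n L) v (V v)) ∧ ∀ s : ℂ, 3 / 2 < s.re →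
        HasProd (fun v => (lf V s v)⁻¹) (f s)

/-- The Mordell-Weil rank of `E_n` over `L`. -/
noncomputable def rank (n : ℕ) (L : Type) [Field L] : ℕ :=
  Module.finrank ℤ (curve n L).toAffine.Point

/-- The conjecture of Birch and Swinnerton-Dyer on the rank for `E_n` over `L`, with rank `0`: `E_n(L)` is
finite, the `L`-function has a meromorphic continuation to `ℂ`, and all its meromorphic continuations to
connected open sets (which contain `1` and the half plane `Re s > 3 / 2`) have the order `0`, the rank, at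
`s = 1`. -/
def OrderIsRank (n : ℕ) (L : Type) [Field L] [NumberField L] : Prop :=
  Finite (curve n L).toAffine.Point ∧ rank n L = 0 ∧ (∃ f, IsContinuation n L Set.univ f) ∧
    ∀ (U : Set ℂ) (f : ℂ → ℂ), IsContinuation n L U f →
      meromorphicOrderAt f 1 = ((rank n L : ℤ) : WithTop ℤ)

/-- `OrderIsRank` for `E_{n'}`, `n'` the cube-free part of `n`, over all the fields
`L = ℚ(∛l : l ∈ S)`, `S ⊆ M`. -/
def Good (M : Finset ℕ) (n : ℕ) : Prop :=
  ∀ S ⊆ M, ∀ (L : Type) [Field L] [NumberField L], Radical S L → OrderIsRank (cubeFreePart n) L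

/-- The number of the `D ≤ X` of the family that belong to `A`. -/
noncomputable def count (M : Finset ℕ) (A : Set ℕ) (X : ℕ) : ℕ :=
  ((Finset.Icc 1 X).filter fun D => Family M D ∧ D ∈ A).card

/-- The upper density of `A` in the family is at least `δ`. -/
def UpperDensity (M : Finset ℕ) (A : Set ℕ) (δ : ℝ) : Prop :=
  ∀ ε : ℝ, 0 < ε → ∃ᶠ X : ℕ in atTop, (δ - ε) * (count M Set.univ X : ℝ) ≤ (count M A X : ℝ)

/-- `c = ∏_{i ≥ 1} (1 - 3^{-i})`. -/
noncomputable def c : ℝ := ∏' i : ℕ, (1 - (1 / 3 : ℝ) ^ (i + 1))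

section analysis

/-- A meromorphic function on a connected open set which agrees with `g` for `Re s > 3 / 2` has the order
of `g` at `1`. -/
theorem order_eq {U : Set ℂ} {f g : ℂ → ℂ} (hU : IsPreconnected U)
    (hH : {s : ℂ | 3 / 2 < s.re} ⊆ U) (h1 : (1 : ℂ) ∈ U) (hf : MeromorphicOn f U)
    (hg : MeromorphicOn g Set.univ) (h : ∀ s : ℂ, 3 / 2 < s.re → f s = g s) :
    meromorphicOrderAt f 1 = meromorphicOrderAt g 1 := by
  have hd : MeromorphicOn (f - g) U := hf.sub fun x _ => hg x (Set.mem_univ x)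
  have h2U : (2 : ℂ) ∈ U := hH (show (3 / 2 : ℝ) < (2 : ℂ).re by norm_num)
  have h2 : meromorphicOrderAt (f - g) 2 = ⊤ := by
    rw [meromorphicOrderAt_eq_top_iff]
    have h3 : ∀ᶠ s : ℂ in 𝓝 2, 3 / 2 < s.re :=
      Complex.continuous_re.continuousAt.eventually (lt_mem_nhds (by norm_num))
    filter_upwards [h3.filter_mono nhdsWithin_le_nhds] with s hs
    rw [Pi.sub_apply, h s hs, sub_self]
  have h3 : meromorphicOrderAt (f - g) 1 = ⊤ := by
    by_contra hcon
    exact hd.meromorphicOrderAt_ne_top_of_isPreconnected hU h1 h2U hcon h2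
  rw [meromorphicOrderAt_eq_top_iff] at h3
  refine meromorphicOrderAt_congr ?_
  filter_upwards [h3] with s hs
  exact sub_eq_zero.1 hs

/-- the order of an analytic function which is not zero -/
theorem order_zero {g : ℂ → ℂ} (h : AnalyticAt ℂ g 1) (h0 : g 1 ≠ 0) :
    meromorphicOrderAt g 1 = 0 := by
  rw [h.meromorphicOrderAt_eq, h.analyticOrderAt_eq_zero.2 h0]
  rfl

end analysis

section proof

open Run7.h460.JL.Mix (cn UD)
open Run7.h460.QD.Q (SC cf IsMult IsNine cn_card cn_univ tw_all AllGood mem_SC)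
open Pool.Agent.R432.JG (Cl cl_iff Pre twN all_good full ell exists_gen)
open Pool.Agent.Y703.CT (NoSplit)

variable {M : Finset ℕ}

theorem fam_iff (D : ℕ) : Family M D ↔ Cl M D := by
  rw [cl_iff]
  unfold Family
  exact Iff.rfl

theorem mult_iff (m : ℕ) : IsMultiplier M m ↔ IsMult m ∧ ∀ l ∈ M, ¬ l ∣ m := by
  unfold IsMultiplier IsMult
  tauto

theorem count_eq (A : Set ℕ) (X : ℕ) : (count M A X : ℝ) = cn (SC M X) A :=
  (cn_card fam_iff A X).symm

theorem count_univ (X : ℕ) : (count M Set.univ X : ℝ) = ((SC M X).card : ℝ) :=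
  (count_eq _ _).trans (cn_univ X)

theorem ud_iff (A : Set ℕ) (δ : ℝ) : UpperDensity M A δ ↔ UD (SC M) A δ := by
  unfold UpperDensity UD
  simp only [count_eq, cn_univ]

theorem twN_ext {D : ℕ} {S : Finset ℕ} (h : S ⊆ M) (t : {l : ℕ // l ∈ S} → ZMod 3) :
    twN D M (fun l => if h : l.1 ∈ S then t ⟨l.1, h⟩ else 0) = twN D S t := by
  unfold twN
  congr 1
  set g : ℕ → ℕ := fun l => l ^ (if h : l ∈ S then t ⟨l, h⟩ else 0 : ZMod 3).val with hg
  have h1 : ∏ i : {l : ℕ // l ∈ M}, i.1 ^ (if h : i.1 ∈ S then t ⟨i.1, h⟩ else 0 : ZMod 3).val =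
      ∏ l ∈ M, g l := Finset.prod_coe_sort M g
  have h2 : ∏ i : {l : ℕ // l ∈ S}, i.1 ^ (t i).val = ∏ l ∈ S, g l := by
    rw [← Finset.prod_coe_sort S g]
    refine Finset.prod_congr rfl fun i _ => ?_
    rw [hg]
    simp only [i.2, dif_pos]
  rw [h1, h2]
  refine (Finset.prod_subset h fun l _ hl => ?_).symm
  rw [hg]
  simp only [hl, not_false_eq_true, dif_neg, ZMod.val_zero, pow_zero]

theorem rank_zero (n : ℕ) (L : Type) [Field L] (h : Finite (curve n L).toAffine.Point) :
    rank n L = 0 := by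
  unfold rank
  refine Module.finrank_eq_zero_of_rank_eq_zero (rank_eq_zero_iff.2 fun x => ?_)
  refine ⟨(Nat.card (curve n L).toAffine.Point : ℤ), by exact_mod_cast Nat.card_pos.ne', ?_⟩
  rw [natCast_zsmul]
  exact card_nsmul_eq_zero'

theorem good_of (hM : ∀ l ∈ M, l.Prime ∧ l % 9 = 1) {D n : ℕ} (hD : Cl M D) (hn : IsNine n)
    (hcop : ∀ l ∈ M, ¬ l ∣ n) (hg : AllGood M (D * n)) : Good M (D * n) := by
  obtain ⟨hC, hP, -⟩ := tw_all hM hD hn hcop
  rintro S hS L _ _ ⟨r, hr, hgen⟩
  have hPS : Pre (cf (D * n)) S := ⟨fun l hl => hP.pr l (hS hl), fun l hl => hP.nine l (hS hl),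
    fun l hl => hP.nd l (hS hl)⟩
  have hN : ∀ t : {l : ℕ // l ∈ S} → ZMod 3, NoSplit (twN (cf (D * n)) S t) := by
    intro t
    rw [← twN_ext hS t]
    exact hg _
  obtain ⟨-, h2, -, G, h4, h5, h6⟩ := all_good hC hPS hN r hr hgen
  have hD0 : cf (D * n) ≠ 0 := by
    intro h0
    have h1 := hC.1
    rw [h0] at h1
    exact absurd h1.1 (by simp)
  have hB : 3 * cf (D * n) * ∏ l ∈ S, l ≠ 0 := mul_ne_zero (mul_ne_zero (by norm_num) hD0)
    (Finset.prod_ne_zero_iff.2 fun l hl => (hPS.pr l hl).ne_zero)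
  obtain ⟨Λ, h7, h8, h9, h10⟩ := full (L := L) hB (Dvd.intro _ rfl) h4 h5 h6
  have h11 : ∀ V : HeightOneSpectrum (𝓞 L) → WeierstrassCurve (𝓞 L),
      (∀ v, IsMinAt (curve (cubeFreePart (D * n)) L) v (V v)) → ∀ s : ℂ, 3 / 2 < s.re →
        HasProd (fun v => (lf V s v)⁻¹) (Λ s) := by
    intro V hV s hs
    rw [h10 V hV s hs]
    exact (Pool.Agent.R433.MD.hasProd_lf _ (ell hD0) V hV hs).1
  have hr0 := rank_zero (cubeFreePart (D * n)) L h2
  refine ⟨h2, hr0, ⟨Λ, isOpen_univ, isPreconnected_univ, Set.subset_univ _, Set.mem_univ _, h7, ?_⟩,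
    ?_⟩
  · obtain ⟨V, hV⟩ := Pool.Agent.R433.MD.exists_minimal (curve (cubeFreePart (D * n)) L) (ell hD0)
    exact ⟨V, hV, h11 V hV⟩
  · rintro U f ⟨-, h12, h13, h14, h15, V', hV', h16⟩
    rw [order_eq h12 h13 h14 h15 h7 fun s hs => (h16 s hs).unique (h11 V' hV' s hs),
      order_zero h8 h9, hr0]
    rfl

end proof

open Run7.h460.JL.Mix (cn UD)
open Run7.h460.QD.Q (SC cf IsMult IsNine AllGood mem_SC)
open Pool.Agent.R432.JG (Cl cl_iff)

/-- **Main theorem.** -/
theorem result (M : Finset ℕ) (hM : ∀ l ∈ M, l.Prime ∧ l % 9 = 1) :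
    (0.56 : ℝ) < c ∧ Tendsto (fun X => count M Set.univ X) atTop atTop ∧
    (∀ S : Finset ℕ, ∃ (L : Type) (_ : Field L) (_ : NumberField L), Radical S L) ∧
    -- the products of a sequence of multipliers, `D` in a dense set
    (∀ (A : Set ℕ) (δ η : ℝ), 0 < δ → 0 < η → η < 1 → UpperDensity M A δ →
      ∀ R : Set ℕ, R.Infinite → (∀ m ∈ R, IsMultiplier M m) →
      ∃ m : ℕ → ℕ, Function.Injective m ∧ (∀ i, m i ∈ R) ∧ ∀ n : ℕ,
        UpperDensity M {D | D ∈ A ∧ ∀ J ⊆ Finset.range n, J.Nonempty → Good M (D * ∏ i ∈ J, m i)}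
          ((1 - η) * δ * c ^ ((2 ^ n - 1) * 3 ^ M.card))) ∧
    -- the whole family
    ∀ T : Finset ℕ, (∀ t ∈ T, IsMultiplier M t) → ∀ ε : ℝ, 0 < ε → ∀ᶠ X in atTop,
      (c ^ (T.card * 3 ^ M.card) - ε) * (count M Set.univ X : ℝ) ≤
        (count M {D | ∀ t ∈ T, Good M (D * t)} X : ℝ) := by
  refine ⟨Pool.Agent.R432.JG.c3_gt, ?_, fun S => ?_, ?_, ?_⟩
  · rw [← tendsto_natCast_atTop_iff (R := ℝ)]
    refine (Run7.h460.QD.Q.card_tendsto hM).congr fun X => ?_
    rw [count_univ]
  · obtain ⟨L, i1, i2, r, h1, h2⟩ := Pool.Agent.R432.JG.exists_gen S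
    exact ⟨L, i1, i2, r, h1, h2⟩
  · intro A δ η hδ hη hη1 hA R hR hRm
    have hRm' : ∀ m ∈ R, IsMult m ∧ ∀ l ∈ M, ¬ l ∣ m := fun m hm => (mult_iff m).1 (hRm m hm)
    obtain ⟨u, h1, h2, h3⟩ := Run7.h460.QD.Q.sub_nf hM hR hRm' hδ hη hη1 ((ud_iff A δ).1 hA)
    refine ⟨u, h1, h2, fun n => (ud_iff _ _).2 ?_⟩
    have e : (1 - η) * δ * c ^ ((2 ^ n - 1) * 3 ^ M.card) =
        δ * (1 - η) * Pool.Agent.Y703.CX.c3 ^ ((2 ^ n - 1) * 3 ^ M.card) := by
      show (1 - η) * δ * c ^ ((2 ^ n - 1) * 3 ^ M.card) =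
        δ * (1 - η) * c ^ ((2 ^ n - 1) * 3 ^ M.card)
      ring
    rw [e]
    refine Run7.h460.QD.Q.UD.congr' (h3 n) fun X D hD hDA => ⟨hDA.1, fun J hJ hne => ?_⟩
    obtain ⟨h4, h5⟩ := Run7.h460.QD.Q.prodM_nine (M₀ := M) (u := u) (n := n)
      (fun i _ => hRm' _ (h2 i)) hM hJ
    exact good_of hM (mem_SC hD) h4 h5 (hDA.2 J hJ hne)
  · intro T hT ε hε
    have h := Run7.h460.QD.Q.law_nf hM (fun t ht => (mult_iff t).1 (hT t ht))
    have h1 := h.eventually (lt_mem_nhds (show Pool.Agent.Y703.CX.c3 ^ (T.card * 3 ^ M.card) - ε <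
      Pool.Agent.Y703.CX.c3 ^ (T.card * 3 ^ M.card) by linarith))
    filter_upwards [h1, Pool.Agent.R432.JG.ev_pos hM] with X hX hX0
    have hX0' : (0 : ℝ) < ((SC M X).card : ℝ) := hX0
    rw [lt_div_iff₀ hX0'] at hX
    rw [count_univ, count_eq]
    refine hX.le.trans (Run7.h460.QD.Q.cn_le fun D hD hg t ht => ?_)
    have h2 := (mult_iff t).1 (hT t ht)
    exact good_of hM (mem_SC hD) h2.1.nine h2.2 (hg t ht)

end Pool.Agent.Results.MP_413b36_nt.ProductsOfMultipliers
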